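import Pool.Agent.Helper66_RLA.U2m
import Pool.Agent.Helper36_RF.Chr

/-!
# U2B: the Ricci tensor of the `U(2)` invariant metric at the base point (MP_62da59_gt, part I)
-/

noncomputable section

open scoped ContDiff Topology ENNReal RealInnerProductSpace
set_option maxSynthPendingDepth 3
open Set Metric

namespace Pool.Agent.RLim.H66

open Pool.Agent.RF Pool.Agent.RLim

section General

variable {ι : Type} [Fintype ι] [DecidableEq ι] {G : E ι → Bil (E ι)} {U : Set (E ι)}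

/-- second derivatives of the metric -/
def T2 (G : E ι → Bil (E ι)) (x u v w z : E ι) : ℝ :=
  fderiv ℝ (fun y => fderiv ℝ G y v w z) x u

omit [DecidableEq ι] in
theorem diff_fd (h : IsMetricOn G U) {x : E ι} (hx : x ∈ U) :
    DifferentiableAt ℝ (fderiv ℝ G) x :=
  (((h.smooth.fderiv_of_isOpen h.isOpen (m := ∞) (by simp)) x hx).contDiffAt
    (h.isOpen.mem_nhds hx)).differentiableAt (by simp)

omit [DecidableEq ι] in
theorem diff_fd3 (h : IsMetricOn G U) {x : E ι} (hx : x ∈ U) (v w z : E ι) :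
    DifferentiableAt ℝ (fun y => fderiv ℝ G y v w z) x := by
  have h0 := diff_fd h hx
  have h1 := h0.clm_apply (differentiableAt_const v)
  have h2 := h1.clm_apply (differentiableAt_const w)
  exact h2.clm_apply (differentiableAt_const z)

theorem T2_symm (h : IsMetricOn G U) {x : E ι} (hx : x ∈ U) (u v w z : E ι) :
    T2 G x u v w z = T2 G x u v z w := by
  unfold T2
  have : (fun y => fderiv ℝ G y v w z) =ᶠ[𝓝 x] (fun y => fderiv ℝ G y v z w) := by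
    filter_upwards [h.isOpen.mem_nhds hx] with y hy
    exact h.fderiv_symm hy v w z
  rw [this.fderiv_eq]

theorem dchris (h : IsMetricOn G U) {x : E ι} (hx : x ∈ U) (u v w z : E ι) :
    G x (fderiv ℝ (fun y => chris G y v w) x u) z =
      (1/2 : ℝ) * (T2 G x u v w z + T2 G x u w v z - T2 G x u z v w)
        - fderiv ℝ G x u (chris G x v w) z := by
  have h1 : HasFDerivAt (fun y => G y (chris G y v w) z) _ x :=
    (((h.diffAt hx).hasFDerivAt.clm_apply (h.diffAt_chris hx v w).hasFDerivAt).clm_apply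
      (hasFDerivAt_const z x))
  have h2 : (fun y => G y (chris G y v w) z) =ᶠ[𝓝 x] (fun y => (1/2 : ℝ) *
      (fderiv ℝ G y v w z + fderiv ℝ G y w v z - fderiv ℝ G y z v w)) := by
    filter_upwards [h.isOpen.mem_nhds hx] with y hy
    exact h.chris_spec hy v w z
  have h3 : HasFDerivAt (fun y => (1/2 : ℝ) *
      (fderiv ℝ G y v w z + fderiv ℝ G y w v z - fderiv ℝ G y z v w)) _ x :=
    (((diff_fd3 h hx v w z).hasFDerivAt.add (diff_fd3 h hx w v z).hasFDerivAt).sub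
      (diff_fd3 h hx z v w).hasFDerivAt).const_mul (1/2 : ℝ)
  have h4 := (h1.congr_of_eventuallyEq h2.symm).unique h3
  have h5 := congrArg (fun L : E ι →L[ℝ] ℝ => L u) h4
  simp at h5
  unfold T2
  linarith

/-- the sectional curvature form of the classical formula -/
theorem riem_quad (h : IsMetricOn G U) {x : E ι} (hx : x ∈ U) (u v : E ι) :
    G x (riem G x u v v) u = T2 G x u v v u - (1/2 : ℝ) * T2 G x u u v v
      - (1/2 : ℝ) * T2 G x v v u u - G x (chris G x u u) (chris G x v v)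
      + G x (chris G x v u) (chris G x u v) := by
  unfold riem
  simp only [map_add, map_sub, _root_.add_apply, _root_.sub_apply]
  rw [dchris h hx, dchris h hx]
  have e1 := h.chris_spec hx u (chris G x v v) u
  have e2 := h.chris_spec hx v (chris G x u v) u
  have e3 := h.chris_spec hx u u (chris G x v v)
  have e4 := h.chris_spec hx v u (chris G x u v)
  have s1 := T2_symm h hx v u v u
  have s3 := h.fderiv_symm hx u u (chris G x v v)
  have s4 := h.fderiv_symm hx v u (chris G x u v)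
  linarith

/-- Christoffel symbols of the first kind -/
def Kf (G : E ι → Bil (E ι)) (x v w z : E ι) : ℝ :=
  (1/2 : ℝ) * (fderiv ℝ G x v w z + fderiv ℝ G x w v z - fderiv ℝ G x z v w)

theorem eb_sum (q : E ι) : q = ∑ k, q k • (eb k : E ι) := by
  ext j
  simp [eb, Pi.single_apply]

theorem ric_diag (h : IsMetricOn G U) {x : E ι} (hx : x ∈ U) (g : ι → ℝ) (hg : ∀ i, g i ≠ 0)
    (hd : ∀ p i, G x p (eb i) = g i * p i) (v : E ι) :
    ric G x v v = ∑ i, (T2 G x (eb i) v v (eb i) - (1/2 : ℝ) * T2 G x (eb i) (eb i) v v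
      - (1/2 : ℝ) * T2 G x v v (eb i) (eb i)
      - ∑ k, Kf G x (eb i) (eb i) (eb k) * Kf G x v v (eb k) / g k
      + ∑ k, Kf G x v (eb i) (eb k) * Kf G x (eb i) v (eb k) / g k) / g i := by
  have hG : ∀ p q, G x p q = ∑ k, g k * p k * q k := by
    intro p q
    conv_lhs => rw [eb_sum q]
    rw [map_sum]
    apply Finset.sum_congr rfl
    intro k _
    rw [map_smul, hd, smul_eq_mul]
    ring
  have hc : ∀ a b k, chris G x a b k = Kf G x a b (eb k) / g k := by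
    intro a b k
    rw [eq_div_iff (hg k), mul_comm, ← hd]
    exact h.chris_spec hx a b (eb k)
  have hcc : ∀ a b c d, G x (chris G x a b) (chris G x c d)
      = ∑ k, Kf G x a b (eb k) * Kf G x c d (eb k) / g k := by
    intro a b c d
    rw [hG]
    apply Finset.sum_congr rfl
    intro k _
    rw [hc, hc]
    have := hg k
    field_simp
  unfold ric
  apply Finset.sum_congr rfl
  intro i _
  rw [eq_div_iff (hg i), mul_comm, ← hd, riem_quad h hx, hcc, hcc]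

end General

section Line

variable {f g : ℝ → ℝ}

/-- `f'(r)/r` -/
def rd (f : ℝ → ℝ) (r : ℝ) : ℝ := deriv f r / r

theorem rd_smooth (hf : ContDiffOn ℝ ∞ f (Ioi 0)) : ContDiffOn ℝ ∞ (rd f) (Ioi 0) := by
  unfold rd
  refine ContDiffOn.div (hf.deriv_of_isOpen isOpen_Ioi (by simp)) contDiffOn_id (fun r hr => ?_)
  have : (0:ℝ) < r := hr
  exact this.ne'

theorem hd_of (hf : ContDiffOn ℝ ∞ f (Ioi 0)) {r : ℝ} (hr : 0 < r) :
    HasDerivAt f (rd f r * r) r := by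
  have h1 : DifferentiableAt ℝ f r := ((hf r hr).contDiffAt (Ioi_mem_nhds hr)).differentiableAt
    (by simp)
  have h2 : rd f r * r = deriv f r := by
    unfold rd
    field_simp
  rw [h2]
  exact h1.hasDerivAt

theorem line_lin (x v : E4) : HasDerivAt (fun t : ℝ => x + t • v) v 0 := by
  have h := (hasDerivAt_id (0:ℝ)).smul_const v
  simpa using h.const_add x

theorem line_norm {x : E4} (hx : x ≠ 0) (v : E4) :
    HasDerivAt (fun t : ℝ => ‖x + t • v‖) (⟪x, v⟫ / ‖x‖) 0 := by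
  have h0 : HasDerivAt (fun t : ℝ => ‖x + t • v‖ ^ 2) (2 * ⟪x + (0:ℝ) • v, v⟫) 0 :=
    (line_lin x v).norm_sq
  have h1 := h0.sqrt (by simp [hx])
  have e : (fun t : ℝ => √(‖x + t • v‖ ^ 2)) = fun t : ℝ => ‖x + t • v‖ := by
    funext t
    exact Real.sqrt_sq (norm_nonneg _)
  rw [e] at h1
  convert h1 using 1
  have hn : 0 < ‖x‖ := norm_pos_iff.mpr hx
  simp only [zero_smul, add_zero]
  rw [Real.sqrt_sq hn.le]
  field_simp

theorem line_rad (hf : ContDiffOn ℝ ∞ f (Ioi 0)) {x : E4} (hx : x ≠ 0) (v : E4) :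
    HasDerivAt (fun t : ℝ => f ‖x + t • v‖) (rd f ‖x‖ * ⟪x, v⟫) 0 := by
  have hn : 0 < ‖x‖ := norm_pos_iff.mpr hx
  have h1 := hd_of hf hn
  have h2 : HasDerivAt f (rd f ‖x‖ * ‖x‖) ‖x + (0:ℝ) • v‖ := by simpa using h1
  have h3 := h2.comp (0:ℝ) (line_norm hx v)
  have e : rd f ‖x‖ * ‖x‖ * (⟪x, v⟫ / ‖x‖) = rd f ‖x‖ * ⟪x, v⟫ := by
    field_simp
  rw [e] at h3
  exact h3

theorem line_inner (x v w : E4) : HasDerivAt (fun t : ℝ => ⟪x + t • v, w⟫) ⟪v, w⟫ 0 := by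
  have h := (line_lin x v).inner ℝ (hasDerivAt_const (0:ℝ) w)
  simpa using h

theorem line_JJ (x v w : E4) : HasDerivAt (fun t : ℝ => ⟪JJ (x + t • v), w⟫) ⟪JJ v, w⟫ 0 := by
  have h := line_inner (JJ x) (JJ v) w
  have e : (fun t : ℝ => ⟪JJ (x + t • v), w⟫) = fun t : ℝ => ⟪JJ x + t • JJ v, w⟫ := by
    funext t
    have : JJ (x + t • v) = JJ x + t • JJ v := by
      rw [← JL_apply, map_add, map_smul, JL_apply, JL_apply]
    rw [this]
  rw [e]
  exact h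

variable {a b c : ℝ → ℝ}

/-- first derivative of the metric -/
def C1 (a b c : ℝ → ℝ) (y v w z : E4) : ℝ :=
  rd a ‖y‖ * ⟪y, v⟫ * ⟪w, z⟫ + rd b ‖y‖ * ⟪y, v⟫ * (⟪y, w⟫ * ⟪y, z⟫)
    + b ‖y‖ * (⟪v, w⟫ * ⟪y, z⟫ + ⟪y, w⟫ * ⟪v, z⟫)
    + rd c ‖y‖ * ⟪y, v⟫ * (⟪JJ y, w⟫ * ⟪JJ y, z⟫)
    + c ‖y‖ * (⟪JJ v, w⟫ * ⟪JJ y, z⟫ + ⟪JJ y, w⟫ * ⟪JJ v, z⟫)

/-- second derivative of the metric -/
def C2 (a b c : ℝ → ℝ) (y u v w z : E4) : ℝ :=
  (rd (rd a) ‖y‖ * ⟪y, u⟫ * ⟪y, v⟫ + rd a ‖y‖ * ⟪u, v⟫) * ⟪w, z⟫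
    + (rd (rd b) ‖y‖ * ⟪y, u⟫ * ⟪y, v⟫ + rd b ‖y‖ * ⟪u, v⟫) * (⟪y, w⟫ * ⟪y, z⟫)
    + rd b ‖y‖ * ⟪y, v⟫ * (⟪u, w⟫ * ⟪y, z⟫ + ⟪y, w⟫ * ⟪u, z⟫)
    + rd b ‖y‖ * ⟪y, u⟫ * (⟪v, w⟫ * ⟪y, z⟫ + ⟪y, w⟫ * ⟪v, z⟫)
    + b ‖y‖ * (⟪v, w⟫ * ⟪u, z⟫ + ⟪u, w⟫ * ⟪v, z⟫)
    + (rd (rd c) ‖y‖ * ⟪y, u⟫ * ⟪y, v⟫ + rd c ‖y‖ * ⟪u, v⟫) * (⟪JJ y, w⟫ * ⟪JJ y, z⟫)
    + rd c ‖y‖ * ⟪y, v⟫ * (⟪JJ u, w⟫ * ⟪JJ y, z⟫ + ⟪JJ y, w⟫ * ⟪JJ u, z⟫)
    + rd c ‖y‖ * ⟪y, u⟫ * (⟪JJ v, w⟫ * ⟪JJ y, z⟫ + ⟪JJ y, w⟫ * ⟪JJ v, z⟫)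
    + c ‖y‖ * (⟪JJ v, w⟫ * ⟪JJ u, z⟫ + ⟪JJ u, w⟫ * ⟪JJ v, z⟫)

theorem line1 (ha : ContDiffOn ℝ ∞ a (Ioi 0)) (hb : ContDiffOn ℝ ∞ b (Ioi 0))
    (hc : ContDiffOn ℝ ∞ c (Ioi 0)) {y : E4} (hy : y ≠ 0) (v w z : E4) :
    HasDerivAt (fun t : ℝ => gen (a ‖y + t • v‖) (b ‖y + t • v‖) (c ‖y + t • v‖) 0
      (y + t • v) w z) (C1 a b c y v w z) 0 := by
  have A := line_rad ha hy v
  have B := line_rad hb hy v
  have C := line_rad hc hy v
  have Iw := line_inner y v w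
  have Iz := line_inner y v z
  have Jw := line_JJ y v w
  have Jz := line_JJ y v z
  have h := ((A.mul_const ⟪w, z⟫).add (B.mul (Iw.mul Iz))).add (C.mul (Jw.mul Jz))
  have e : (fun t : ℝ => gen (a ‖y + t • v‖) (b ‖y + t • v‖) (c ‖y + t • v‖) 0
      (y + t • v) w z) = fun t : ℝ => a ‖y + t • v‖ * ⟪w, z⟫
        + b ‖y + t • v‖ * (⟪y + t • v, w⟫ * ⟪y + t • v, z⟫)
        + c ‖y + t • v‖ * (⟪JJ (y + t • v), w⟫ * ⟪JJ (y + t • v), z⟫) := by
    funext t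
    rw [gen_apply]
    ring
  rw [e]
  refine h.congr_deriv ?_
  unfold C1
  simp only [zero_smul, add_zero, Pi.mul_apply]
  ring

theorem line2 (ha : ContDiffOn ℝ ∞ a (Ioi 0)) (hb : ContDiffOn ℝ ∞ b (Ioi 0))
    (hc : ContDiffOn ℝ ∞ c (Ioi 0)) {y : E4} (hy : y ≠ 0) (u v w z : E4) :
    HasDerivAt (fun t : ℝ => C1 a b c (y + t • u) v w z) (C2 a b c y u v w z) 0 := by
  have A1 := line_rad (rd_smooth ha) hy u
  have B := line_rad hb hy u
  have C := line_rad hc hy u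
  have B1 := line_rad (rd_smooth hb) hy u
  have D1 := line_rad (rd_smooth hc) hy u
  have Iv := line_inner y u v
  have Iw := line_inner y u w
  have Iz := line_inner y u z
  have Jw := line_JJ y u w
  have Jz := line_JJ y u z
  have h := (((((A1.mul Iv).mul_const ⟪w, z⟫).add ((B1.mul Iv).mul (Iw.mul Iz))).add
    (B.mul ((Iz.const_mul ⟪v, w⟫).add (Iw.mul_const ⟪v, z⟫)))).add
    ((D1.mul Iv).mul (Jw.mul Jz))).add
    (C.mul ((Jz.const_mul ⟪JJ v, w⟫).add (Jw.mul_const ⟪JJ v, z⟫)))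
  refine h.congr_deriv ?_
  unfold C2
  simp only [zero_smul, add_zero, Pi.mul_apply, Pi.add_apply]
  ring

end Line

section Closed

variable {F B : ℝ → ℝ}

theorem fd1 (h : UOk F B) (hM : IsMetricOn (u2 F B) (Om (Fin 4))) {y : E4} (hy : y ≠ 0)
    (v w z : E4) : fderiv ℝ (u2 F B) y v w z = C1 (fa B) (fm F B) (fk B) y v w z := by
  have hd : DifferentiableAt ℝ (u2 F B) y := hM.diffAt hy
  have h1 : HasFDerivAt (fun y => u2 F B y w z) _ y :=
    ((hd.hasFDerivAt.clm_apply (hasFDerivAt_const w y)).clm_apply (hasFDerivAt_const z y))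
  have h2 := h1.hasLineDerivAt v
  have h3 : HasDerivAt (fun t : ℝ => u2 F B (y + t • v) w z) _ 0 := h2
  have h4 := line1 (fa_smooth h) (fm_smooth h) (fk_smooth h) hy v w z
  have h5 := h3.unique h4
  rw [← h5]
  simp

theorem fd2 (h : UOk F B) (hM : IsMetricOn (u2 F B) (Om (Fin 4))) {y : E4} (hy : y ≠ 0)
    (u v w z : E4) : T2 (u2 F B) y u v w z = C2 (fa B) (fm F B) (fk B) y u v w z := by
  have hd := (diff_fd3 hM hy v w z).hasFDerivAt.hasLineDerivAt u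
  have h3 : HasDerivAt (fun t : ℝ => fderiv ℝ (u2 F B) (y + t • u) v w z) _ 0 := hd
  have h4 := line2 (fa_smooth h) (fm_smooth h) (fk_smooth h) hy u v w z
  have h5 : (fun t : ℝ => fderiv ℝ (u2 F B) (y + t • u) v w z) =ᶠ[𝓝 0]
      (fun t : ℝ => C1 (fa B) (fm F B) (fk B) (y + t • u) v w z) := by
    have hc : ContinuousAt (fun t : ℝ => y + t • u) 0 := (line_lin y u).continuousAt
    have hn : ∀ᶠ t : ℝ in 𝓝 0, y + t • u ≠ 0 := by
      apply hc.eventually_ne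
      simpa using hy
    filter_upwards [hn] with t ht
    exact fd1 h hM ht v w z
  exact (h3.congr_of_eventuallyEq h5.symm).unique h4

/-! ### the coefficients -/

theorem rd_congr {f g : ℝ → ℝ} (h : ∀ r, 0 < r → f r = g r) {r : ℝ} (hr : 0 < r) :
    rd f r = rd g r := by
  have : f =ᶠ[𝓝 r] g := by
    filter_upwards [Ioi_mem_nhds hr] with t ht
    exact h t ht
  unfold rd
  rw [this.deriv_eq]

theorem rd_of {f : ℝ → ℝ} {r d : ℝ} (_ : 0 < r) (h : HasDerivAt f d r) : rd f r = d / r := by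
  unfold rd
  rw [h.deriv]

theorem rd_div2 {f : ℝ → ℝ} (hf : ContDiffOn ℝ ∞ f (Ioi 0)) {r : ℝ} (hr : 0 < r) :
    rd (fun r => f r / r ^ 2) r = (rd f r - 2 * (f r / r ^ 2)) / r ^ 2 := by
  have h1 := (hd_of hf hr).div (hasDerivAt_pow 2 r) (by positivity)
  have h2 := rd_of hr h1
  have e : (fun r => f r / r ^ 2) = (f / fun x => x ^ 2) := rfl
  rw [e, h2]
  field_simp
  ring

theorem rd_rd_div2 {f : ℝ → ℝ} (hf : ContDiffOn ℝ ∞ f (Ioi 0)) {r : ℝ} (hr : 0 < r) :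
    rd (rd (fun r => f r / r ^ 2)) r
      = (rd (rd f) r - 4 * rd (fun r => f r / r ^ 2) r) / r ^ 2 := by
  have hq : ContDiffOn ℝ ∞ (fun r => f r / r ^ 2) (Ioi 0) :=
    hf.div (contDiffOn_id.pow 2) (fun t ht => by
      have : (0:ℝ) < t := ht
      positivity)
  have h0 : rd (rd (fun r => f r / r ^ 2)) r
      = rd (fun r => (fun r => rd f r - 2 * (f r / r ^ 2)) r / r ^ 2) r :=
    rd_congr (fun t ht => rd_div2 hf ht) hr
  have h1 : ContDiffOn ℝ ∞ (fun r => rd f r - 2 * (f r / r ^ 2)) (Ioi 0) :=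
    (rd_smooth hf).sub (contDiffOn_const.mul hq)
  rw [h0, rd_div2 h1 hr]
  have h2 : rd (fun r => rd f r - 2 * (f r / r ^ 2)) r
      = rd (rd f) r - 2 * rd (fun r => f r / r ^ 2) r := by
    have d := (hd_of (rd_smooth hf) hr).sub ((hd_of hq hr).const_mul 2)
    have e : (fun r => rd f r - 2 * (f r / r ^ 2))
        = (rd f - fun y => 2 * (f y / y ^ 2)) := rfl
    rw [e, rd_of hr d]
    field_simp
  rw [h2]
  have h3 := rd_div2 hf hr
  rw [h3]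
  ring

theorem rd_sub {f g : ℝ → ℝ} (hf : ContDiffOn ℝ ∞ f (Ioi 0)) (hg : ContDiffOn ℝ ∞ g (Ioi 0))
    {r : ℝ} (hr : 0 < r) : rd (fun r => f r - g r) r = rd f r - rd g r := by
  have d := (hd_of hf hr).sub (hd_of hg hr)
  have e : (fun r => f r - g r) = f - g := rfl
  rw [e, rd_of hr d]
  field_simp

theorem rd_rd_sub {f g : ℝ → ℝ} (hf : ContDiffOn ℝ ∞ f (Ioi 0))
    (hg : ContDiffOn ℝ ∞ g (Ioi 0)) {r : ℝ} (hr : 0 < r) :
    rd (rd (fun r => f r - g r)) r = rd (rd f) r - rd (rd g) r := by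
  have h0 : rd (rd (fun r => f r - g r)) r = rd (fun r => rd f r - rd g r) r :=
    rd_congr (fun t ht => rd_sub hf hg ht) hr
  rw [h0, rd_sub (rd_smooth hf) (rd_smooth hg) hr]

theorem rd_const (k : ℝ) (r : ℝ) : rd (fun _ => k) r = 0 := by
  unfold rd
  simp

theorem rd_rd_const (k : ℝ) (r : ℝ) : rd (rd (fun _ => k)) r = 0 := by
  have : rd (fun _ => k) = fun _ => 0 := by
    funext r
    exact rd_const k r
  rw [this]
  exact rd_const 0 r

theorem hd_B (h : UOk F B) {r : ℝ} (hr : 0 < r) : HasDerivAt B (deriv B r) r :=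
  (((h.B_smooth r hr).contDiffAt (Ioi_mem_nhds hr)).differentiableAt (by simp)).hasDerivAt

theorem hd_F (h : UOk F B) {r : ℝ} (hr : 0 < r) : HasDerivAt F (deriv F r) r :=
  (((h.F_smooth r hr).contDiffAt (Ioi_mem_nhds hr)).differentiableAt (by simp)).hasDerivAt

theorem hd_B1 (h : UOk F B) {r : ℝ} (hr : 0 < r) :
    HasDerivAt (deriv B) (deriv (deriv B) r) r :=
  ((((h.B_smooth.deriv_of_isOpen (m := ∞) isOpen_Ioi (by simp)) r hr).contDiffAt
    (Ioi_mem_nhds hr)).differentiableAt (by simp)).hasDerivAt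

theorem rd_B2 (h : UOk F B) {r : ℝ} (hr : 0 < r) :
    rd (fun r => B r ^ 2) r = 2 * B r * deriv B r / r := by
  have d := (hd_B h hr).pow 2
  have e : (fun r => B r ^ 2) = B ^ 2 := rfl
  rw [e, rd_of hr d]
  simp

theorem rd_rd_B2 (h : UOk F B) {r : ℝ} (hr : 0 < r) :
    rd (rd (fun r => B r ^ 2)) r = (2 * (deriv B r ^ 2 + B r * deriv (deriv B) r)
      - 2 * B r * deriv B r / r) / r ^ 2 := by
  have h0 : rd (rd (fun r => B r ^ 2)) r = rd (fun r => 2 * B r * deriv B r / r) r :=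
    rd_congr (fun t ht => rd_B2 h ht) hr
  rw [h0]
  have d := ((((hd_B h hr).const_mul 2).mul (hd_B1 h hr)).div (hasDerivAt_id r) hr.ne')
  have e : (fun r => 2 * B r * deriv B r / r) = ((fun y => 2 * B y) * deriv B) / id := rfl
  rw [e, rd_of hr d]
  simp only [Pi.mul_apply, id]
  field_simp

theorem B2_smooth (h : UOk F B) : ContDiffOn ℝ ∞ (fun r => B r ^ 2) (Ioi 0) := h.B_smooth.pow 2

theorem rd_fa (h : UOk F B) {r : ℝ} (hr : 0 < r) :
    rd (fa B) r = (2 * B r * deriv B r / r - 2 * (B r ^ 2 / r ^ 2)) / r ^ 2 := by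
  have h1 := rd_div2 (B2_smooth h) hr
  rw [rd_B2 h hr] at h1
  exact h1

theorem rd_rd_fa (h : UOk F B) {r : ℝ} (hr : 0 < r) :
    rd (rd (fa B)) r = ((2 * (deriv B r ^ 2 + B r * deriv (deriv B) r)
      - 2 * B r * deriv B r / r) / r ^ 2 - 4 * rd (fa B) r) / r ^ 2 := by
  have h1 := rd_rd_div2 (B2_smooth h) hr
  rw [rd_rd_B2 h hr] at h1
  exact h1

theorem Finv_smooth (h : UOk F B) : ContDiffOn ℝ ∞ (fun r => 1 / F r) (Ioi 0) :=
  contDiffOn_const.div h.F_smooth (fun r hr => (h.F_pos r hr).ne')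

theorem rd_Finv (h : UOk F B) {r : ℝ} (hr : 0 < r) :
    rd (fun r => 1 / F r) r = -(deriv F r / F r ^ 2) / r := by
  have d := (hasDerivAt_const r (1:ℝ)).div (hd_F h hr) (h.F_pos r hr).ne'
  have e : (fun r => 1 / F r) = (fun _ => (1:ℝ)) / F := rfl
  rw [e, rd_of hr d]
  field_simp
  ring

theorem rd_fm (h : UOk F B) {r : ℝ} (hr : 0 < r) :
    rd (fm F B) r = (-(deriv F r / F r ^ 2) / r - rd (fa B) r - 2 * fm F B r) / r ^ 2 := by
  have h1 := rd_div2 (f := fun r => 1 / F r - fa B r) ((Finv_smooth h).sub (fa_smooth h)) hr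
  rw [rd_sub (Finv_smooth h) (fa_smooth h) hr, rd_Finv h hr] at h1
  exact h1

theorem rd_rd_fm (h : UOk F B) {r : ℝ} (hr : 0 < r) :
    rd (rd (fm F B)) r = (rd (rd (fun r => 1 / F r)) r - rd (rd (fa B)) r
      - 4 * rd (fm F B) r) / r ^ 2 := by
  have h1 := rd_rd_div2 (f := fun r => 1 / F r - fa B r) ((Finv_smooth h).sub (fa_smooth h)) hr
  rw [rd_rd_sub (Finv_smooth h) (fa_smooth h) hr] at h1
  exact h1

theorem rd_fk (h : UOk F B) {r : ℝ} (hr : 0 < r) :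
    rd (fk B) r = (-rd (fa B) r - 2 * fk B r) / r ^ 2 := by
  have h1 := rd_div2 (f := fun r => 1 - fa B r) (contDiffOn_const.sub (fa_smooth h)) hr
  rw [rd_sub contDiffOn_const (fa_smooth h) hr, rd_const, zero_sub] at h1
  exact h1

theorem rd_rd_fk (h : UOk F B) {r : ℝ} (hr : 0 < r) :
    rd (rd (fk B)) r = (-rd (rd (fa B)) r - 4 * rd (fk B) r) / r ^ 2 := by
  have h1 := rd_rd_div2 (f := fun r => 1 - fa B r) (contDiffOn_const.sub (fa_smooth h)) hr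
  rw [rd_rd_sub contDiffOn_const (fa_smooth h) hr, rd_rd_const, zero_sub] at h1
  exact h1

/-! ### the base point -/

theorem Xb0 (R : ℝ) : Xb R 0 = R := rfl
theorem Xb1 (R : ℝ) : Xb R 1 = 0 := rfl
theorem Xb2 (R : ℝ) : Xb R 2 = 0 := rfl
theorem Xb3 (R : ℝ) : Xb R 3 = 0 := rfl

theorem norm_Xb {R : ℝ} (hR : 0 < R) : ‖Xb R‖ = R := by
  have h : ‖Xb R‖ ^ 2 = R ^ 2 := by
    rw [norm4, Xb0, Xb1, Xb2, Xb3]
    ring
  exact (sq_eq_sq₀ (norm_nonneg _) hR.le).mp h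

theorem ne_Xb {R : ℝ} (hR : 0 < R) : Xb R ≠ 0 := by
  rw [← norm_pos_iff, norm_Xb hR]
  exact hR

theorem in_Xb (R : ℝ) (w : E4) : ⟪Xb R, w⟫ = R * w 0 := by
  rw [inner4, Xb0, Xb1, Xb2, Xb3]
  ring

theorem in_JXb (R : ℝ) (w : E4) : ⟪JJ (Xb R), w⟫ = R * w 1 := by
  rw [inner4, JJ0, JJ1, JJ2, JJ3, Xb0, Xb1, Xb2, Xb3]
  ring

theorem in_JJ (v w : E4) : ⟪JJ v, w⟫ = -v 1 * w 0 + v 0 * w 1 - v 3 * w 2 + v 2 * w 3 := by
  rw [inner4, JJ0, JJ1, JJ2, JJ3]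
  ring

/-- the metric at the base point -/
theorem u2_base (h : UOk F B) {R : ℝ} (hR : 0 < R) (p w : E4) : u2 F B (Xb R) p w =
    p 0 * w 0 / F R + p 1 * w 1 + B R ^ 2 / R ^ 2 * (p 2 * w 2 + p 3 * w 3) := by
  have hF := h.F_pos R hR
  rw [u2, gen_apply, norm_Xb hR, in_Xb, in_Xb, in_JXb, in_JXb, inner4]
  field_simp
  ring

theorem eb_val (i j : Fin 4) : (eb i : E4) j = if j = i then 1 else 0 := by
  simp [eb]

theorem C1_base (a b c : ℝ → ℝ) {R : ℝ} (hR : 0 < R) (v w z : E4) :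
    C1 a b c (Xb R) v w z = rd a R * (R * v 0) * (w 0 * z 0 + w 1 * z 1 + w 2 * z 2 + w 3 * z 3)
    + rd b R * (R * v 0) * ((R * w 0) * (R * z 0))
    + b R * ((v 0 * w 0 + v 1 * w 1 + v 2 * w 2 + v 3 * w 3) * (R * z 0)
      + (R * w 0) * (v 0 * z 0 + v 1 * z 1 + v 2 * z 2 + v 3 * z 3))
    + rd c R * (R * v 0) * ((R * w 1) * (R * z 1))
    + c R * ((-v 1 * w 0 + v 0 * w 1 - v 3 * w 2 + v 2 * w 3) * (R * z 1)
      + (R * w 1) * (-v 1 * z 0 + v 0 * z 1 - v 3 * z 2 + v 2 * z 3)) := by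
  unfold C1
  rw [norm_Xb hR]
  simp only [in_Xb, in_JXb]
  simp only [in_JJ]
  simp only [inner4]

theorem C2_base (a b c : ℝ → ℝ) {R : ℝ} (hR : 0 < R) (u v w z : E4) :
    C2 a b c (Xb R) u v w z =
    (rd (rd a) R * (R * u 0) * (R * v 0)
      + rd a R * (u 0 * v 0 + u 1 * v 1 + u 2 * v 2 + u 3 * v 3))
        * (w 0 * z 0 + w 1 * z 1 + w 2 * z 2 + w 3 * z 3)
    + (rd (rd b) R * (R * u 0) * (R * v 0)
      + rd b R * (u 0 * v 0 + u 1 * v 1 + u 2 * v 2 + u 3 * v 3)) * ((R * w 0) * (R * z 0))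
    + rd b R * (R * v 0) * ((u 0 * w 0 + u 1 * w 1 + u 2 * w 2 + u 3 * w 3) * (R * z 0)
      + (R * w 0) * (u 0 * z 0 + u 1 * z 1 + u 2 * z 2 + u 3 * z 3))
    + rd b R * (R * u 0) * ((v 0 * w 0 + v 1 * w 1 + v 2 * w 2 + v 3 * w 3) * (R * z 0)
      + (R * w 0) * (v 0 * z 0 + v 1 * z 1 + v 2 * z 2 + v 3 * z 3))
    + b R * ((v 0 * w 0 + v 1 * w 1 + v 2 * w 2 + v 3 * w 3)
        * (u 0 * z 0 + u 1 * z 1 + u 2 * z 2 + u 3 * z 3)
      + (u 0 * w 0 + u 1 * w 1 + u 2 * w 2 + u 3 * w 3)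
        * (v 0 * z 0 + v 1 * z 1 + v 2 * z 2 + v 3 * z 3))
    + (rd (rd c) R * (R * u 0) * (R * v 0)
      + rd c R * (u 0 * v 0 + u 1 * v 1 + u 2 * v 2 + u 3 * v 3)) * ((R * w 1) * (R * z 1))
    + rd c R * (R * v 0) * ((-u 1 * w 0 + u 0 * w 1 - u 3 * w 2 + u 2 * w 3) * (R * z 1)
      + (R * w 1) * (-u 1 * z 0 + u 0 * z 1 - u 3 * z 2 + u 2 * z 3))
    + rd c R * (R * u 0) * ((-v 1 * w 0 + v 0 * w 1 - v 3 * w 2 + v 2 * w 3) * (R * z 1)
      + (R * w 1) * (-v 1 * z 0 + v 0 * z 1 - v 3 * z 2 + v 2 * z 3))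
    + c R * ((-v 1 * w 0 + v 0 * w 1 - v 3 * w 2 + v 2 * w 3)
        * (-u 1 * z 0 + u 0 * z 1 - u 3 * z 2 + u 2 * z 3)
      + (-u 1 * w 0 + u 0 * w 1 - u 3 * w 2 + u 2 * w 3)
        * (-v 1 * z 0 + v 0 * z 1 - v 3 * z 2 + v 2 * z 3)) := by
  unfold C2
  rw [norm_Xb hR]
  simp only [in_Xb, in_JXb]
  simp only [in_JJ]
  simp only [inner4]

end Closed

theorem u2b (hM : U2MetricStmt) : U2BaseStmt := by
  intro F B h R hR V
  have hMM := hM F B h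
  have hx := ne_Xb hR
  have hA := h.B_pos R hR
  have hF := h.F_pos R hR
  have hg : ∀ i, (![1 / F R, 1, B R ^ 2 / R ^ 2, B R ^ 2 / R ^ 2] : Fin 4 → ℝ) i ≠ 0 := by
    intro i
    fin_cases i
    · show 1 / F R ≠ 0
      positivity
    · show (1:ℝ) ≠ 0
      norm_num
    · show B R ^ 2 / R ^ 2 ≠ 0
      positivity
    · show B R ^ 2 / R ^ 2 ≠ 0
      positivity
  have hd : ∀ p i, u2 F B (Xb R) p (eb i)
      = (![1 / F R, 1, B R ^ 2 / R ^ 2, B R ^ 2 / R ^ 2] : Fin 4 → ℝ) i * p i := by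
    intro p i
    rw [u2_base h hR]
    fin_cases i <;> simp [eb_val] <;> ring
  rw [ric_diag hMM hx _ hg hd]
  simp only [Fin.sum_univ_four, Kf, fd1 h hMM hx, fd2 h hMM hx, C1_base _ _ _ hR,
    C2_base _ _ _ hR, eb_val, Fin.reduceEq, if_true, if_false, Fin.isValue, mul_one, mul_zero,
    zero_mul, one_mul, add_zero, zero_add, sub_zero, neg_zero, zero_sub, sub_self, zero_div,
    Matrix.cons_val]
  have e1 : fm F B R = (1 / F R - B R ^ 2 / R ^ 2) / R ^ 2 := rfl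
  have e2 : fk B R = (1 - B R ^ 2 / R ^ 2) / R ^ 2 := rfl
  have e3 := rd_fm h hR
  have e4 := rd_rd_fm h hR
  have e5 := rd_fk h hR
  have e6 := rd_rd_fk h hR
  have e7 := rd_fa h hR
  have e8 := rd_rd_fa h hR
  unfold ucA ucB ucC
  generalize rd (rd fun r => 1 / F r) R = P2 at *
  generalize rd (rd (fm F B)) R = m2 at *
  generalize rd (fm F B) R = m1 at *
  generalize fm F B R = m at *
  generalize rd (rd (fk B)) R = k2 at *
  generalize rd (fk B) R = k1 at *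
  generalize fk B R = k at *
  generalize rd (rd (fa B)) R = a2 at *
  generalize rd (fa B) R = a1 at *
  generalize deriv (deriv B) R = B2 at *
  generalize deriv B R = B1 at *
  generalize deriv F R = F1 at *
  generalize F R = F0 at *
  generalize B R = A at *
  generalize V.ofLp 0 = v0 at *
  generalize V.ofLp 1 = v1 at *
  generalize V.ofLp 2 = v2 at *
  generalize V.ofLp 3 = v3 at *
  clear hd hg hx hMM hM
  subst e4 e6 e3 e5 e1 e2 e8 e7
  field_simp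
  ring

end Pool.Agent.RLim.H66
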