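import Pool.Agent.Helper1_RL.Stmts

/-!
# U2M: the `U(2)` invariant metric is a smooth metric (MP_62da59_gt, part I)
-/

noncomputable section

open scoped ContDiff Topology ENNReal RealInnerProductSpace
set_option maxSynthPendingDepth 3
open Set Metric

namespace Pool.Agent.RLim.H66

open Pool.Agent.RF Pool.Agent.RLim

theorem inner4 (v w : E4) : ⟪v, w⟫ = v 0 * w 0 + v 1 * w 1 + v 2 * w 2 + v 3 * w 3 := by
  rw [EuclideanSpace.inner_eq_star_dotProduct]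
  simp [dotProduct, Fin.sum_univ_four]
  ring

theorem norm4 (v : E4) : ‖v‖ ^ 2 = v 0 ^ 2 + v 1 ^ 2 + v 2 ^ 2 + v 3 ^ 2 := by
  rw [EuclideanSpace.norm_sq_eq]
  simp [Fin.sum_univ_four]

theorem JJ0 (X : E4) : JJ X 0 = -X 1 := rfl
theorem JJ1 (X : E4) : JJ X 1 = X 0 := rfl
theorem JJ2 (X : E4) : JJ X 2 = -X 3 := rfl
theorem JJ3 (X : E4) : JJ X 3 = X 2 := rfl

/-- `JJ` as a continuous linear map -/
def JL : E4 →L[ℝ] E4 := LinearMap.toContinuousLinearMap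
  { toFun := JJ
    map_add' := by
      intro x y
      ext i
      fin_cases i <;> simp [JJ] <;> ring
    map_smul' := by
      intro c x
      ext i
      fin_cases i <;> simp [JJ] }

theorem JL_apply (X : E4) : JL X = JJ X := rfl

theorem contDiff_JJ : ContDiff ℝ ∞ JJ := JL.contDiff

theorem contDiff_sq : ContDiff ℝ ∞ (sq : E4 → Bil E4) := by
  have h : ContDiff ℝ ∞ (fun a : E4 => (innerSL ℝ a : E4 →L[ℝ] ℝ)) :=
    (innerSL ℝ : E4 →L[ℝ] E4 →L[ℝ] ℝ).contDiff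
  exact h.smulRight h

theorem contDiffOn_norm : ContDiffOn ℝ ∞ (fun X : E4 => ‖X‖) (Om (Fin 4)) := by
  intro X hX
  exact (contDiffAt_norm ℝ hX).contDiffWithinAt

theorem contDiffOn_rad {f : ℝ → ℝ} (hf : ContDiffOn ℝ ∞ f (Ioi 0)) :
    ContDiffOn ℝ ∞ (fun X : E4 => f ‖X‖) (Om (Fin 4)) :=
  hf.comp contDiffOn_norm (fun _ hX => norm_pos_iff.mpr hX)

theorem contDiffOn_gen {f g h : ℝ → ℝ} (hf : ContDiffOn ℝ ∞ f (Ioi 0))
    (hg : ContDiffOn ℝ ∞ g (Ioi 0)) (hh : ContDiffOn ℝ ∞ h (Ioi 0)) :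
    ContDiffOn ℝ ∞ (fun X : E4 => gen (f ‖X‖) (g ‖X‖) (h ‖X‖) 0 X) (Om (Fin 4)) := by
  unfold gen
  refine ContDiffOn.add (ContDiffOn.add (ContDiffOn.add ?_ ?_) ?_) ?_
  · exact (contDiffOn_rad hf).smul contDiffOn_const
  · exact (contDiffOn_rad hg).smul contDiff_sq.contDiffOn
  · exact (contDiffOn_rad hh).smul (contDiff_sq.comp contDiff_JJ).contDiffOn
  · simp only [zero_smul]
    exact contDiffOn_const

/-- `F`, `B` give the coefficient functions -/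
def fa (B : ℝ → ℝ) (r : ℝ) : ℝ := B r ^ 2 / r ^ 2
def fm (F B : ℝ → ℝ) (r : ℝ) : ℝ := (1 / F r - B r ^ 2 / r ^ 2) / r ^ 2
def fk (B : ℝ → ℝ) (r : ℝ) : ℝ := (1 - B r ^ 2 / r ^ 2) / r ^ 2

theorem u2_eq (F B : ℝ → ℝ) (X : E4) :
    u2 F B X = gen (fa B ‖X‖) (fm F B ‖X‖) (fk B ‖X‖) 0 X := rfl

theorem fa_smooth {F B : ℝ → ℝ} (h : UOk F B) : ContDiffOn ℝ ∞ (fa B) (Ioi 0) := by
  unfold fa
  exact (h.B_smooth.pow 2).div (contDiffOn_id.pow 2) (fun r hr => by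
    have : (0:ℝ) < r := hr
    positivity)

theorem fm_smooth {F B : ℝ → ℝ} (h : UOk F B) : ContDiffOn ℝ ∞ (fm F B) (Ioi 0) := by
  unfold fm
  refine ContDiffOn.div (ContDiffOn.sub ?_ (fa_smooth h)) (contDiffOn_id.pow 2) (fun r hr => ?_)
  · exact contDiffOn_const.div h.F_smooth (fun r hr => (h.F_pos r hr).ne')
  · have : (0:ℝ) < r := hr
    positivity

theorem fk_smooth {F B : ℝ → ℝ} (h : UOk F B) : ContDiffOn ℝ ∞ (fk B) (Ioi 0) := by
  unfold fk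
  refine ContDiffOn.div (ContDiffOn.sub contDiffOn_const (fa_smooth h)) (contDiffOn_id.pow 2)
    (fun r hr => ?_)
  have : (0:ℝ) < r := hr
  positivity

theorem u2_key (X V : E4) : ‖X‖ ^ 2 * ‖V‖ ^ 2 = ⟪X, V⟫ ^ 2 + ⟪JJ X, V⟫ ^ 2
    + (X 0 * V 2 - X 1 * V 3 - X 2 * V 0 + X 3 * V 1) ^ 2
    + (X 0 * V 3 + X 1 * V 2 - X 2 * V 1 - X 3 * V 0) ^ 2 := by
  rw [norm4, norm4, inner4, inner4, JJ0, JJ1, JJ2, JJ3]
  ring

theorem u2m : U2MetricStmt := by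
  intro F B h
  refine ⟨isOpen_ne, ?_, ?_, ?_⟩
  · exact (contDiffOn_gen (fa_smooth h) (fm_smooth h) (fk_smooth h)).congr
      (fun X _ => u2_eq F B X)
  · intro X hX v w
    simp only [u2, gen_apply]
    rw [real_inner_comm w v]
    ring
  · intro X hX V hV
    have hR : 0 < ‖X‖ := norm_pos_iff.mpr hX
    have hN : 0 < ‖V‖ := norm_pos_iff.mpr hV
    have hF := h.F_pos _ hR
    have hB := h.B_pos _ hR
    have hk := u2_key X V
    simp only [u2, gen_apply]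
    rw [real_inner_self_eq_norm_sq]
    set R := ‖X‖
    set a := ⟪X, V⟫
    set b := ⟪JJ X, V⟫
    set p := X 0 * V 2 - X 1 * V 3 - X 2 * V 0 + X 3 * V 1
    set q := X 0 * V 3 + X 1 * V 2 - X 2 * V 1 - X 3 * V 0
    have e : B R ^ 2 / R ^ 2 * ‖V‖ ^ 2 + (1 / F R - B R ^ 2 / R ^ 2) / R ^ 2 * (a * a)
        + (1 - B R ^ 2 / R ^ 2) / R ^ 2 * (b * b) + 0 * (⟪YY X, V⟫ * ⟪YY X, V⟫)
        = (a ^ 2 / F R + b ^ 2 + B R ^ 2 / R ^ 2 * (p ^ 2 + q ^ 2)) / R ^ 2 := by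
      have : ‖V‖ ^ 2 = (a ^ 2 + b ^ 2 + p ^ 2 + q ^ 2) / R ^ 2 := by
        rw [← hk]
        field_simp
      rw [this]
      field_simp
      ring
    rw [e]
    apply div_pos _ (by positivity)
    have h1 : 0 < a ^ 2 + b ^ 2 + p ^ 2 + q ^ 2 := by
      rw [← hk]
      positivity
    by_contra hc
    push Not at hc
    have t1 : 0 ≤ a ^ 2 / F R := by positivity
    have t2 : 0 ≤ b ^ 2 := by positivity
    have t3 : 0 ≤ B R ^ 2 / R ^ 2 * (p ^ 2 + q ^ 2) := by positivity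
    have z1 : a ^ 2 / F R = 0 := by linarith
    have z2 : b ^ 2 = 0 := by linarith
    have z3 : B R ^ 2 / R ^ 2 * (p ^ 2 + q ^ 2) = 0 := by linarith
    have y1 : a ^ 2 = 0 := by
      rcases div_eq_zero_iff.mp z1 with h | h
      · exact h
      · exact absurd h hF.ne'
    have y3 : p ^ 2 + q ^ 2 = 0 := by
      rcases mul_eq_zero.mp z3 with h | h
      · exact absurd h (by positivity)
      · exact h
    linarith

end Pool.Agent.RLim.H66
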